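import Pool.Agent.Y17.G.Defs

/-!
Two representations by `b² + 14 y²`: the symbols, uniqueness, the total flip and the product formula
(`S_SYM`, `S_UNI`, `S_TOT`, `S_PRO` of `Y17/G/Defs.lean`). The proofs of the last three statements are
adapted from `Y259/Z7/Sol.lean`.
-/

set_option autoImplicit false

namespace Pool.Agent.Y37.Z17G

open Finset Pool.Agent.Y17.G
open Pool.Agent.Z700 (pr)
open Pool.Agent.Y17.N (Sp)

theorem prime_of {p : ℕ} (h : Sp p ∨ In p) : p.Prime := by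
  rcases h with h | h
  · exact h.1
  · exact h.1

theorem mod8_of {p : ℕ} (h : Sp p ∨ In p) : p % 8 = 1 ∨ p % 8 = 3 ∨ p % 8 = 5 := by
  rcases h with h | h
  · exact Or.inl h.2.1
  · exact Or.inr h.2.1

theorem mod7_of {p : ℕ} (h : Sp p ∨ In p) : p % 7 ≠ 0 := by
  rcases h with h | h
  · have := h.2.2
    omega
  · have := h.2.2
    omega

theorem mod3_of {p : ℕ} (h : Sp p ∨ In p) (h3 : p ≠ 3) : p % 3 = 1 ∨ p % 3 = 2 := by
  have hp := prime_of h
  have h3 : ¬ 3 ∣ p := by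
    intro hd
    exact h3 ((Nat.prime_dvd_prime_iff_eq Nat.prime_three hp).1 hd).symm
  omega

theorem jac7 {a : ℕ} {r : ℤ} (h : (a : ℤ) % 7 = r) : jacobiSym (a : ℤ) 7 = jacobiSym r 7 := by
  rw [jacobiSym.mod_left]
  norm_num
  rw [h]

theorem jac_sp {a : ℕ} (h : Sp a) : jacobiSym (a : ℤ) 7 = 1 := by
  rcases h.2.2 with h | h | h
  · have h' : (a : ℤ) % 7 = 1 := by omega
    rw [jac7 h']
    norm_num
  · have h' : (a : ℤ) % 7 = 2 := by omega
    rw [jac7 h']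
    norm_num
  · have h' : (a : ℤ) % 7 = 4 := by omega
    rw [jac7 h']
    norm_num

theorem jac_in {a : ℕ} (h : In a) : jacobiSym (a : ℤ) 7 = -1 := by
  rcases h.2.2 with h | h | h
  · have h' : (a : ℤ) % 7 = 3 := by omega
    rw [jac7 h']
    norm_num
  · have h' : (a : ℤ) % 7 = 5 := by omega
    rw [jac7 h']
    norm_num
  · have h' : (a : ℤ) % 7 = 6 := by omega
    rw [jac7 h']
    norm_num

theorem all_mod (P : Finset ℕ) (hP : ∀ p ∈ P, Sp p ∨ In p) (hn3 : 3 ∉ P) :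
    (pr P : ℕ) % 8 = 3 ^ (i3 P).card * 5 ^ (i5 P).card % 8 ∧
    (pr P % 3 = 1 ∨ pr P % 3 = 2) ∧ jacobiSym ((pr P : ℕ) : ℤ) 7 = (-1) ^ (inn P).card ∧
    (inn P).card = (i3 P).card + (i5 P).card := by
  classical
  induction P using Finset.induction_on with
  | empty => simp [pr, i3, i5, inn]
  | insert a s ha ih =>
    obtain ⟨k1, k2, k3, k4⟩ := ih (fun p hp => hP p (Finset.mem_insert_of_mem hp))
      (fun h => hn3 (Finset.mem_insert_of_mem h))
    have hA := hP a (Finset.mem_insert_self a s)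
    have hpr : pr (insert a s) = a * pr s := by
      unfold pr
      rw [Finset.prod_insert ha]
    have ha3 := mod3_of hA fun h => hn3 (h ▸ Finset.mem_insert_self a s)
    have h3 : pr (insert a s) % 3 = 1 ∨ pr (insert a s) % 3 = 2 := by
      rw [hpr, Nat.mul_mod]
      rcases ha3 with h | h <;> rcases k2 with h' | h' <;> rw [h, h'] <;> norm_num
    have hj : jacobiSym ((pr (insert a s) : ℕ) : ℤ) 7
        = jacobiSym (a : ℤ) 7 * jacobiSym ((pr s : ℕ) : ℤ) 7 := by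
      rw [hpr]
      push_cast
      rw [jacobiSym.mul_left]
    have g3 : ∀ (t : ℕ), (insert a s).filter (fun p => p % 8 = t)
        = if a % 8 = t then insert a (s.filter fun p => p % 8 = t)
          else s.filter fun p => p % 8 = t := fun t => Finset.filter_insert ..
    have gi : inn (insert a s) = if ¬ a % 8 = 1 then insert a (inn s) else inn s :=
      Finset.filter_insert ..
    have n3 : a ∉ i3 s := fun h => ha (Finset.mem_filter.1 h).1
    have n5 : a ∉ i5 s := fun h => ha (Finset.mem_filter.1 h).1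
    have ni : a ∉ inn s := fun h => ha (Finset.mem_filter.1 h).1
    rcases mod8_of hA with c | c | c
    · have e3 : i3 (insert a s) = i3 s := by
        unfold i3
        rw [g3 3, if_neg (by omega)]
      have e5 : i5 (insert a s) = i5 s := by
        unfold i5
        rw [g3 5, if_neg (by omega)]
      have ei : inn (insert a s) = inn s := by
        rw [gi, if_neg (by omega)]
      have hsp : Sp a := by
        rcases hA with h | h
        · exact h
        · exfalso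
          have := h.2.1
          omega
      rw [e3, e5, ei]
      refine ⟨?_, h3, ?_, k4⟩
      · rw [hpr, Nat.mul_mod, c, one_mul, Nat.mod_mod, k1]
      · rw [hj, jac_sp hsp, one_mul, k3]
    · have e3 : (i3 (insert a s)).card = (i3 s).card + 1 := by
        have : i3 (insert a s) = insert a (i3 s) := by
          unfold i3
          rw [g3 3, if_pos c]
        rw [this, Finset.card_insert_of_notMem n3]
      have e5 : i5 (insert a s) = i5 s := by
        unfold i5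
        rw [g3 5, if_neg (by omega)]
      have ei : (inn (insert a s)).card = (inn s).card + 1 := by
        rw [gi, if_pos (by omega), Finset.card_insert_of_notMem ni]
      have hin : In a := by
        rcases hA with h | h
        · exfalso
          have := h.2.1
          omega
        · exact h
      rw [e3, e5, ei]
      refine ⟨?_, h3, ?_, by omega⟩
      · rw [hpr, Nat.mul_mod, c, k1, pow_succ, Nat.mul_mod_mod]
        congr 1
        ring
      · rw [hj, jac_in hin, k3]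
        ring
    · have e3 : i3 (insert a s) = i3 s := by
        unfold i3
        rw [g3 3, if_neg (by omega)]
      have e5 : (i5 (insert a s)).card = (i5 s).card + 1 := by
        have : i5 (insert a s) = insert a (i5 s) := by
          unfold i5
          rw [g3 5, if_pos c]
        rw [this, Finset.card_insert_of_notMem n5]
      have ei : (inn (insert a s)).card = (inn s).card + 1 := by
        rw [gi, if_pos (by omega), Finset.card_insert_of_notMem ni]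
      have hin : In a := by
        rcases hA with h | h
        · exfalso
          have := h.2.1
          omega
        · exact h
      rw [e3, e5, ei]
      refine ⟨?_, h3, ?_, by omega⟩
      · rw [hpr, Nat.mul_mod, c, k1, pow_succ, Nat.mul_mod_mod]
        congr 1
        ring
      · rw [hj, jac_in hin, k3]
        ring

theorem pr_dvd {P : Finset ℕ} (hP : ∀ p ∈ P, p.Prime) {z : ℤ} (h : ∀ p ∈ P, (p : ℤ) ∣ z) :
    (pr P : ℤ) ∣ z := by
  classical
  unfold pr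
  rw [Nat.cast_prod]
  refine Finset.prod_dvd_of_coprime ?_ h
  intro p hp q hq hpq
  have h1 : Nat.Coprime p q := (Nat.coprime_primes (hP p hp) (hP q hq)).mpr hpq
  exact Nat.isCoprime_iff_coprime.mpr h1

theorem pr_pos {P : Finset ℕ} (hP : ∀ p ∈ P, p.Prime) : 0 < pr P :=
  Finset.prod_pos fun p hp => (hP p hp).pos

theorem dvd_pr {P : Finset ℕ} {p : ℕ} (hp : p ∈ P) : p ∣ pr P := Finset.dvd_prod_of_mem _ hp

theorem pr_sq {P : Finset ℕ} (hP : ∀ p ∈ P, p.Prime) : Squarefree (pr P) := by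
  unfold pr
  refine Finset.squarefree_prod_of_pairwise_isCoprime ?_ fun p hp => (hP p hp).prime.squarefree
  intro p hp q hq hpq
  exact Nat.coprime_iff_isRelPrime.mp ((Nat.coprime_primes (hP p hp) (hP q hq)).mpr hpq)

/-- the basic facts about the admissible pairs -/
theorem pw3 (n : ℕ) (h : n % 2 = 0) : 3 ^ n % 8 = 1 := by
  obtain ⟨k, rfl⟩ : ∃ k, n = 2 * k := ⟨n / 2, by omega⟩
  rw [pow_mul, Nat.pow_mod]
  norm_num

theorem pw3' (n : ℕ) (h : n % 2 = 1) : 3 ^ n % 8 = 3 := by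
  obtain ⟨k, rfl⟩ : ∃ k, n = 2 * k + 1 := ⟨n / 2, by omega⟩
  rw [pow_succ, Nat.mul_mod, pw3 _ (by omega)]

theorem pw5 (n : ℕ) (h : n % 2 = 0) : 5 ^ n % 8 = 1 := by
  obtain ⟨k, rfl⟩ : ∃ k, n = 2 * k := ⟨n / 2, by omega⟩
  rw [pow_mul, Nat.pow_mod]
  norm_num

theorem pr8 {A : Finset ℕ} (hC : Cl A) (hT : Ty 0 A) : pr A % 8 = 1 := by
  rw [(all_mod A hC.1 hC.2).1, Nat.mul_mod, pw3 _ hT.1, pw5 _ hT.2]

theorem pr8' {A : Finset ℕ} (hC : Cl A) (hT : Ty 1 A) : pr A % 8 = 3 := by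
  rw [(all_mod A hC.1 hC.2).1, Nat.mul_mod, pw3' _ hT.1, pw5 _ hT.2]

theorem m_cases {m : ℕ} {A : Finset ℕ} (h : MA m A) : m = 3 ∨ m = 9 := by
  rcases h.2 with h | h
  · exact Or.inr h.1
  · exact Or.inl h.1

theorem N8 {m : ℕ} {A : Finset ℕ} (h : MA m A) : ((m : ℤ) * (pr A : ℤ)) % 8 = 1 := by
  rcases h.2 with ⟨rfl, h2⟩ | ⟨rfl, h2⟩
  · have := pr8 h.1 h2
    omega
  · have := pr8' h.1 h2
    omega

theorem pA {m : ℕ} {A : Finset ℕ} (h : MA m A) : ∀ p ∈ A, p.Prime :=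
  fun p hp => prime_of (h.1.1 p hp)

theorem A2 {m : ℕ} {A : Finset ℕ} (h : MA m A) : ∀ p ∈ A, p ≠ 2 := by
  intro p hp h2
  have := mod8_of (h.1.1 p hp)
  omega

theorem A7 {m : ℕ} {A : Finset ℕ} (h : MA m A) : ∀ p ∈ A, p ≠ 7 := by
  intro p hp h2
  have := mod7_of (h.1.1 p hp)
  omega

theorem A3 {m : ℕ} {A : Finset ℕ} (h : MA m A) : ∀ p ∈ A, p ≠ 3 := by
  intro p hp h2
  exact h.1.2 (h2 ▸ hp)

theorem cop3 {m : ℕ} {A : Finset ℕ} (h : MA m A) {D : Finset ℕ} (hD : D ⊆ A) :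
    IsCoprime (m : ℤ) (pr D : ℤ) := by
  have h1 : Nat.Coprime 3 (pr D) := by
    unfold pr
    apply Nat.Coprime.prod_right
    intro p hp
    exact (Nat.coprime_primes Nat.prime_three (pA h p (hD hp))).mpr (A3 h p (hD hp)).symm
  have h2 : Nat.Coprime m (pr D) := by
    rcases m_cases h with rfl | rfl
    · exact h1
    · have h9 : (9 : ℕ) = 3 ^ 2 := by norm_num
      rw [h9]
      exact h1.pow_left _
  exact Nat.isCoprime_iff_coprime.mpr h2

theorem ndvd {p q : ℕ} (hp : p.Prime) (hq : q.Prime) (h : p ≠ q) : ¬ (p : ℤ) ∣ (q : ℤ) := by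
  intro hd
  have h1 : p ∣ q := by exact_mod_cast hd
  exact h ((Nat.prime_dvd_prime_iff_eq hp hq).1 h1)

theorem coprime_by {m : ℕ} {A : Finset ℕ} (hm : MA m A) {b y : ℤ}
    (h : (m : ℤ) * (pr A : ℤ) = b ^ 2 + 14 * y ^ 2) (h3 : ¬ (3 : ℤ) ∣ b) : IsCoprime b y := by
  have hP := pA hm
  rw [Int.isCoprime_iff_gcd_eq_one]
  by_contra hg
  obtain ⟨r, hr, hrg⟩ := Nat.exists_prime_and_dvd hg
  have hrb : (r : ℤ) ∣ b := (Int.natCast_dvd_natCast.mpr hrg).trans (Int.gcd_dvd_left ..)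
  have hry : (r : ℤ) ∣ y := (Int.natCast_dvd_natCast.mpr hrg).trans (Int.gcd_dvd_right ..)
  have h2 : (r : ℤ) ^ 2 ∣ (m : ℤ) * (pr A : ℤ) := by
    rw [h]
    exact dvd_add (pow_dvd_pow_of_dvd hrb 2) (Dvd.dvd.mul_left (pow_dvd_pow_of_dvd hry 2) _)
  have h4 : r ^ 2 ∣ m * pr A := by exact_mod_cast h2
  have hr3 : r ≠ 3 := by
    rintro rfl
    exact h3 (by exact_mod_cast hrb)
  have h5 : Nat.Coprime (r ^ 2) m := by
    have h1 : Nat.Coprime r 3 := (Nat.coprime_primes hr Nat.prime_three).mpr hr3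
    rcases m_cases hm with rfl | rfl
    · exact h1.pow_left _
    · have h9 : (9 : ℕ) = 3 ^ 2 := by norm_num
      rw [h9]
      exact Nat.Coprime.pow _ _ h1
  have h6 : r ^ 2 ∣ pr A := h5.dvd_of_dvd_mul_left h4
  have h7 : r * r ∣ pr A := by rwa [← pow_two]
  have h8 := pr_sq hP r h7
  exact hr.one_lt.ne' (Nat.isUnit_iff.mp h8)

theorem ndvd_y {m : ℕ} {A : Finset ℕ} (hm : MA m A) {b y : ℤ}
    (h : (m : ℤ) * (pr A : ℤ) = b ^ 2 + 14 * y ^ 2) (h3 : ¬ (3 : ℤ) ∣ b) :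
    ∀ l ∈ A, ¬ (l : ℤ) ∣ y := by
  intro p hp hd
  have hcop := coprime_by hm h h3
  have hpb : (p : ℤ) ∣ b ^ 2 := by
    have h1 : b ^ 2 = (m : ℤ) * (pr A : ℤ) - 14 * y ^ 2 := by linarith
    rw [h1]
    refine dvd_sub (Dvd.dvd.mul_left (by exact_mod_cast dvd_pr hp) _) ?_
    exact Dvd.dvd.mul_left (dvd_pow hd two_ne_zero) _
  have hpp : Prime (p : ℤ) := Nat.prime_iff_prime_int.mp (pA hm p hp)
  exact hpp.not_isUnit (hcop.isUnit_of_dvd' (hpp.dvd_of_dvd_pow hpb) hd)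

theorem ndvd_b {m : ℕ} {A : Finset ℕ} (hm : MA m A) {b y : ℤ}
    (h : (m : ℤ) * (pr A : ℤ) = b ^ 2 + 14 * y ^ 2) (h3 : ¬ (3 : ℤ) ∣ b) :
    ∀ l ∈ A, ¬ (l : ℤ) ∣ b := by
  intro p hp hd
  have hpp : Prime (p : ℤ) := Nat.prime_iff_prime_int.mp (pA hm p hp)
  have h1 : (p : ℤ) ∣ 2 * (7 * y ^ 2) := by
    have h1 : 2 * (7 * y ^ 2) = (m : ℤ) * (pr A : ℤ) - b ^ 2 := by linarith
    rw [h1]
    refine dvd_sub (Dvd.dvd.mul_left (by exact_mod_cast dvd_pr hp) _) (dvd_pow hd two_ne_zero)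
  rcases hpp.dvd_or_dvd h1 with h2 | h2
  · exact ndvd (pA hm p hp) Nat.prime_two (A2 hm p hp) (by exact_mod_cast h2)
  rcases hpp.dvd_or_dvd h2 with h4 | h4
  · exact ndvd (pA hm p hp) (by norm_num : Nat.Prime 7) (A7 hm p hp) (by exact_mod_cast h4)
  · exact ndvd_y hm h h3 p hp (hpp.dvd_of_dvd_pow h4)

theorem y_even {N b y : ℤ} (hm : N % 8 = 1) (h : N = b ^ 2 + 14 * y ^ 2) (hb : b % 4 = 1) :
    y % 2 = 0 := by
  by_contra hy
  have hy1 : y % 2 = 1 := by omega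
  obtain ⟨k, hk⟩ : ∃ k, y = 2 * k + 1 := ⟨y / 2, by omega⟩
  obtain ⟨l, hl⟩ : ∃ l, b = 4 * l + 1 := ⟨b / 4, by omega⟩
  subst hk hl
  have e : N = 8 * (2 * l ^ 2 + l + 7 * (k ^ 2 + k) + 1) + 7 := by
    rw [h]
    ring
  generalize 2 * l ^ 2 + l + 7 * (k ^ 2 + k) + 1 = t at e
  omega

/-- `9 | b + 2 y` for `m = 9` -/
theorem nine {N b y : ℤ} (h9 : (9 : ℤ) ∣ N) (h : N = b ^ 2 + 14 * y ^ 2) (hb : ¬ (3 : ℤ) ∣ b)
    (hyb : (3 : ℤ) ∣ y - b) : (9 : ℤ) ∣ b + 2 * y := by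
  have h1 : (9 : ℤ) ∣ (b - 2 * y) * (b + 2 * y) := by
    have : (b - 2 * y) * (b + 2 * y) = N - 9 * (2 * y ^ 2) := by
      rw [h]
      ring
    rw [this]
    exact dvd_sub h9 (Dvd.intro _ rfl)
  have h2 : ¬ (3 : ℤ) ∣ b - 2 * y := by
    intro h
    apply hb
    have : b = -((b - 2 * y) + 2 * (y - b)) := by ring
    rw [this]
    exact (dvd_neg).mpr (dvd_add h (Dvd.dvd.mul_left hyb _))
  have h3 : IsCoprime (9 : ℤ) (b - 2 * y) := by
    have : IsCoprime (3 : ℤ) (b - 2 * y) := (Int.prime_three.coprime_iff_not_dvd).mpr h2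
    have h9 : (9 : ℤ) = 3 ^ 2 := by norm_num
    rw [h9]
    exact this.pow_left
  exact h3.dvd_of_dvd_mul_left h1

theorem dvd_m {m : ℕ} {A : Finset ℕ} (hm : MA m A) {b y b' y' : ℤ}
    (hq : (m : ℤ) * (pr A : ℤ) = b ^ 2 + 14 * y ^ 2) (hb3 : ¬ (3 : ℤ) ∣ b) (hyb : (3 : ℤ) ∣ y - b)
    (hq' : (m : ℤ) * (pr A : ℤ) = b' ^ 2 + 14 * y' ^ 2) (hb3' : ¬ (3 : ℤ) ∣ b')
    (hyb' : (3 : ℤ) ∣ y' - b') :
    (m : ℤ) ∣ b * b' + 14 * y * y' ∧ (m : ℤ) ∣ b * y' - b' * y := by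
  rcases m_cases hm with rfl | rfl
  · obtain ⟨c, hc⟩ := hyb
    obtain ⟨c', hc'⟩ := hyb'
    obtain rfl : y = b + 3 * c := by linarith
    obtain rfl : y' = b' + 3 * c' := by linarith
    refine ⟨⟨5 * b * b' + 14 * b * c' + 14 * c * b' + 42 * c * c', ?_⟩, ⟨b * c' - b' * c, ?_⟩⟩
    · push_cast
      ring
    · push_cast
      ring
  · have h1 := nine (N := ((9 : ℕ) : ℤ) * (pr A : ℤ)) ⟨_, rfl⟩ hq hb3 hyb
    have h2 := nine (N := ((9 : ℕ) : ℤ) * (pr A : ℤ)) ⟨_, rfl⟩ hq' hb3' hyb'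
    obtain ⟨c, hc⟩ := h1
    obtain ⟨c', hc'⟩ := h2
    obtain rfl : b = 9 * c - 2 * y := by linarith
    obtain rfl : b' = 9 * c' - 2 * y' := by linarith
    refine ⟨⟨9 * c * c' - 2 * c * y' - 2 * c' * y + 2 * y * y', ?_⟩, ⟨c * y' - c' * y, ?_⟩⟩
    · push_cast
      ring
    · push_cast
      ring

theorem dvd_M {m : ℕ} {A : Finset ℕ} (hm : MA m A) {b y b' y' : ℤ}
    (hq : (m : ℤ) * (pr A : ℤ) = b ^ 2 + 14 * y ^ 2) (hb3 : ¬ (3 : ℤ) ∣ b) (hyb : (3 : ℤ) ∣ y - b)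
    (hq' : (m : ℤ) * (pr A : ℤ) = b' ^ 2 + 14 * y' ^ 2) (hb3' : ¬ (3 : ℤ) ∣ b')
    (hyb' : (3 : ℤ) ∣ y' - b') (D : Finset ℕ) (hD : D ⊆ A)
    (h : ∀ l ∈ D, (l : ℤ) ∣ b * y' - b' * y) :
    (m : ℤ) * (pr D : ℤ) ∣ b * b' + 14 * y * y' ∧ (m : ℤ) * (pr D : ℤ) ∣ b * y' - b' * y := by
  obtain ⟨h1, h2⟩ := dvd_m hm hq hb3 hyb hq' hb3' hyb'
  have hP : ∀ p ∈ D, p.Prime := fun p hp => pA hm p (hD hp)
  have hc := cop3 hm hD
  refine ⟨hc.mul_dvd h1 (pr_dvd hP ?_), hc.mul_dvd h2 (pr_dvd hP h)⟩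
  intro l hl
  have hpp : Prime (l : ℤ) := Nat.prime_iff_prime_int.mp (hP l hl)
  have h3 : (l : ℤ) ∣ b * (b * b' + 14 * y * y') := by
    have e : b * (b * b' + 14 * y * y') = b' * ((m : ℤ) * (pr A : ℤ)) + 14 * y * (b * y' - b' * y) := by
      rw [hq]
      ring
    rw [e]
    refine dvd_add (Dvd.dvd.mul_left (Dvd.dvd.mul_left (by exact_mod_cast dvd_pr (hD hl)) _) _)
      (Dvd.dvd.mul_left (h l hl) _)
  rcases hpp.dvd_or_dvd h3 with h4 | h4
  · exact absurd h4 (ndvd_b hm hq hb3 l (hD hl))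
  · exact h4

theorem dvd_T {m : ℕ} {A : Finset ℕ} (hm : MA m A) {b y b' y' : ℤ}
    (hq : (m : ℤ) * (pr A : ℤ) = b ^ 2 + 14 * y ^ 2) (hb3 : ¬ (3 : ℤ) ∣ b)
    (D : Finset ℕ) (hD : D ⊆ A) (h : ∀ l ∈ D, (l : ℤ) ∣ b * y' + b' * y) :
    (pr D : ℤ) ∣ b * b' - 14 * y * y' := by
  have hP : ∀ p ∈ D, p.Prime := fun p hp => pA hm p (hD hp)
  refine pr_dvd hP ?_
  intro l hl
  have hpp : Prime (l : ℤ) := Nat.prime_iff_prime_int.mp (hP l hl)
  have h3 : (l : ℤ) ∣ b * (b * b' - 14 * y * y') := by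
    have e : b * (b * b' - 14 * y * y') = b' * ((m : ℤ) * (pr A : ℤ)) - 14 * y * (b * y' + b' * y) := by
      rw [hq]
      ring
    rw [e]
    refine dvd_sub (Dvd.dvd.mul_left (Dvd.dvd.mul_left (by exact_mod_cast dvd_pr (hD hl)) _) _)
      (Dvd.dvd.mul_left (h l hl) _)
  rcases hpp.dvd_or_dvd h3 with h4 | h4
  · exact absurd h4 (ndvd_b hm hq hb3 l (hD hl))
  · exact h4

/-! ### the algebra -/

theorem alg {N M t u u' v b y b' y' : ℤ} (hN : N = b ^ 2 + 14 * y ^ 2)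
    (hN' : N = b' ^ 2 + 14 * y' ^ 2) (hMt : M * t = N) (h0 : N ≠ 0)
    (hu : b * b' + 14 * y * y' = M * u) (hu' : b * b' - 14 * y * y' = t * u')
    (hv : b * y' - b' * y = M * v) :
    (t + u) * (M + u') = (b + b') ^ 2 ∧ u ^ 2 + 14 * v ^ 2 = t ^ 2 := by
  have hM : M ≠ 0 := by
    rintro rfl
    exact h0 (by rw [← hMt, zero_mul])
  constructor
  · apply mul_left_cancel₀ h0
    have e : N * ((t + u) * (M + u')) = (N + M * u) * (N + t * u') := by
      rw [← hMt]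
      ring
    rw [e, ← hu, ← hu']
    have e2 : (14 * y ^ 2) * (14 * y' ^ 2) = (N - b ^ 2) * (N - b' ^ 2) := by
      rw [show 14 * y ^ 2 = N - b ^ 2 by linarith, show 14 * y' ^ 2 = N - b' ^ 2 by linarith]
    linear_combination -e2
  · apply mul_left_cancel₀ (pow_ne_zero 2 hM)
    have e : M ^ 2 * (u ^ 2 + 14 * v ^ 2) = (M * u) ^ 2 + 14 * (M * v) ^ 2 := by ring
    have e2 : M ^ 2 * t ^ 2 = N * N := by
      rw [← hMt]
      ring
    rw [e, ← hu, ← hv, e2]
    nth_rw 1 [hN]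
    rw [hN']
    ring

/-- the square classes -/
theorem kk {t u v : ℤ} (ht : 0 < t) (h : u ^ 2 + 14 * v ^ 2 = t ^ 2) (h4 : (t + u) % 4 = 2)
    (hc : IsCoprime (t + u) t) : ∃ δ k w : ℤ, (δ = 2 ∨ δ = 14) ∧ t + u = δ * k ^ 2 ∧ k ≠ 0 ∧
      (δ = 2 → t = k ^ 2 + 14 * w ^ 2) ∧ (δ = 14 → t = 7 * k ^ 2 + 2 * w ^ 2) := by
  obtain ⟨K, hK⟩ : ∃ K, t + u = 2 * K := ⟨(t + u) / 2, by omega⟩
  have hKodd : K % 2 = 1 := by omega
  have hv2 : v % 2 = 0 := by
    have e : 2 * (K * (t - K)) = 7 * v ^ 2 := by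
      have e1 : u = 2 * K - t := by linarith
      rw [e1] at h
      nlinarith [h]
    by_contra hne
    obtain ⟨j, hj⟩ : ∃ j, v = 2 * j + 1 := ⟨v / 2, by omega⟩
    rw [hj] at e
    have e2 : 2 * (K * (t - K)) = 2 * (14 * j ^ 2 + 14 * j + 3) + 1 := by
      rw [e]
      ring
    omega
  obtain ⟨x, hx⟩ : ∃ x, v = 2 * x := ⟨v / 2, by omega⟩
  have hKK : K * (t - K) = 14 * x ^ 2 := by
    have e1 : u = 2 * K - t := by linarith
    rw [e1, hx] at h
    nlinarith [h]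
  have hK0 : 0 < K := by
    have h1 : -t ≤ u := by nlinarith [sq_nonneg v]
    omega
  have hcop : IsCoprime K (t - K) := by
    rw [hK] at hc
    have h1 : IsCoprime K t := hc.of_mul_left_right
    have h2 : t - K = t + K * (-1) := by ring
    rw [h2]
    exact h1.add_mul_left_right _
  have p7 : Prime (7 : ℤ) := by
    have : Nat.Prime 7 := by norm_num
    exact_mod_cast Nat.prime_iff_prime_int.mp this
  have hsq : ∀ {a b c : ℤ}, 0 < a → IsCoprime a b → a * b = c ^ 2 →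
      ∃ k w : ℤ, a = k ^ 2 ∧ b = w ^ 2 := by
    intro a b c ha hab e
    have hb : 0 ≤ b := by
      by_contra hb
      push Not at hb
      have := mul_neg_of_pos_of_neg ha hb
      nlinarith [sq_nonneg c]
    obtain ⟨k, hk⟩ := Int.sq_of_isCoprime hab e
    obtain ⟨w, hw⟩ := Int.sq_of_isCoprime hab.symm (by rw [mul_comm]; exact e)
    refine ⟨k, w, ?_, ?_⟩
    · rcases hk with hk | hk
      · exact hk
      · nlinarith [sq_nonneg k]
    · rcases hw with hw | hw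
      · exact hw
      · nlinarith [sq_nonneg w]
  by_cases h7 : (7 : ℤ) ∣ K
  · obtain ⟨c, rfl⟩ := h7
    have e1 : c * (t - 7 * c) = 2 * x ^ 2 := by nlinarith [hKK]
    have hc2 : c % 2 = 1 := by omega
    have h2 : (2 : ℤ) ∣ t - 7 * c := by
      have h3 : (2 : ℤ) ∣ c * (t - 7 * c) := ⟨_, e1⟩
      rcases Int.prime_two.dvd_or_dvd h3 with h | h
      · exfalso
        omega
      · exact h
    obtain ⟨d, hd⟩ := h2
    rw [hd] at e1 hcop
    have e2 : c * d = x ^ 2 := by nlinarith [e1]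
    have hcd : IsCoprime c d := hcop.of_mul_left_right.of_mul_right_right
    obtain ⟨k, w, hk, hw⟩ := hsq (by omega) hcd e2
    refine ⟨14, k, w, Or.inr rfl, ?_, ?_, fun h => by norm_num at h, fun _ => ?_⟩
    · rw [hK, hk]
      ring
    · rintro rfl
      norm_num at hk
      omega
    · have : t = 7 * c + 2 * d := by linarith
      rw [this, hk, hw]
  · have h1 : (7 : ℤ) ∣ t - K := by
      have h3 : (7 : ℤ) ∣ K * (t - K) := ⟨2 * x ^ 2, by rw [hKK]; ring⟩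
      rcases p7.dvd_or_dvd h3 with h | h
      · exact absurd h h7
      · exact h
    have h2 : (2 : ℤ) ∣ t - K := by
      have h3 : (2 : ℤ) ∣ K * (t - K) := ⟨7 * x ^ 2, by rw [hKK]; ring⟩
      rcases Int.prime_two.dvd_or_dvd h3 with h | h
      · exfalso
        omega
      · exact h
    obtain ⟨d, hd⟩ : ∃ d, t - K = 14 * d := ⟨(t - K) / 14, by omega⟩
    rw [hd] at hKK hcop
    have e2 : K * d = x ^ 2 := by nlinarith [hKK]
    have hcd : IsCoprime K d := hcop.of_mul_right_right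
    obtain ⟨k, w, hk, hw⟩ := hsq hK0 hcd e2
    refine ⟨2, k, w, Or.inl rfl, ?_, ?_, fun _ => ?_, fun h => by norm_num at h⟩
    · rw [hK, hk]
    · rintro rfl
      norm_num at hk
      omega
    · have : t = K + 14 * d := by linarith
      rw [this, hk, hw]

theorem kp {K K' c δ k : ℤ} (h : K * K' = c ^ 2) (hδ : δ = 2 ∨ δ = 14) (hK : K = δ * k ^ 2)
    (hk : k ≠ 0) : ∃ k', K' = δ * k' ^ 2 := by
  have h1 : k ^ 2 ∣ c ^ 2 := ⟨δ * K', by rw [← h, hK]; ring⟩
  obtain ⟨e, he⟩ := (Int.pow_dvd_pow_iff two_ne_zero).1 h1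
  have h2 : δ * K' = e ^ 2 := by
    apply mul_left_cancel₀ (pow_ne_zero 2 hk)
    have : k ^ 2 * (δ * K') = K * K' := by rw [hK]; ring
    rw [this, h, he]
    ring
  have e2 : (2 : ℤ) ∣ e := by
    have h3 : (2 : ℤ) ∣ e ^ 2 := by
      rw [← h2]
      rcases hδ with rfl | rfl
      · exact Dvd.intro _ rfl
      · exact ⟨7 * K', by ring⟩
    exact Int.prime_two.dvd_of_dvd_pow h3
  rcases hδ with rfl | rfl
  · obtain ⟨f, rfl⟩ := e2
    exact ⟨f, by nlinarith [h2]⟩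
  · have p7 : Prime (7 : ℤ) := by
      have : Nat.Prime 7 := by norm_num
      exact_mod_cast Nat.prime_iff_prime_int.mp this
    have e7 : (7 : ℤ) ∣ e := by
      have h3 : (7 : ℤ) ∣ e ^ 2 := by
        rw [← h2]
        exact ⟨2 * K', by ring⟩
      exact p7.dvd_of_dvd_pow h3
    obtain ⟨f, rfl⟩ : ∃ f, e = 14 * f := ⟨e / 14, by omega⟩
    exact ⟨f, by nlinarith [h2]⟩

theorem jac_l {l : ℕ} (hl : l.Prime) (h2 : l ≠ 2) (h7 : l ≠ 7) {X P k : ℤ} (hX : ¬ (l : ℤ) ∣ X)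
    (h : (l : ℤ) ∣ P * k ^ 2 - 28 * X) : jacobiSym X l = jacobiSym (7 * P) l := by
  have hpl : Prime (l : ℤ) := Nat.prime_iff_prime_int.mp hl
  have n2 : ¬ (l : ℤ) ∣ 2 := by exact_mod_cast ndvd hl Nat.prime_two h2
  have n7 : ¬ (l : ℤ) ∣ 7 := by exact_mod_cast ndvd hl (by norm_num : Nat.Prime 7) h7
  have gc : ∀ {z : ℤ}, ¬ (l : ℤ) ∣ z → Int.gcd z l = 1 := by
    intro z hz
    rw [Int.gcd_comm, ← Int.isCoprime_iff_gcd_eq_one]
    exact (hpl.coprime_iff_not_dvd).mpr hz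
  have hk : ¬ (l : ℤ) ∣ k := by
    intro hk
    have h1 : (l : ℤ) ∣ 2 * (2 * (7 * X)) := by
      have h3 := dvd_sub (Dvd.dvd.mul_left (dvd_pow hk two_ne_zero) P) h
      have e : P * k ^ 2 - (P * k ^ 2 - 28 * X) = 2 * (2 * (7 * X)) := by ring
      rwa [e] at h3
    rcases hpl.dvd_or_dvd h1 with h | h
    · exact n2 h
    rcases hpl.dvd_or_dvd h with h | h
    · exact n2 h
    rcases hpl.dvd_or_dvd h with h | h
    · exact n7 h
    · exact hX h
  have e1 : jacobiSym (P * k ^ 2) l = jacobiSym (2 ^ 2 * (7 * X)) l := by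
    apply jacobiSym.mod_left'
    apply Int.emod_eq_emod_iff_emod_sub_eq_zero.mpr
    apply Int.emod_eq_zero_of_dvd
    have e : P * k ^ 2 - 2 ^ 2 * (7 * X) = P * k ^ 2 - 28 * X := by ring
    rw [e]
    exact h
  rw [jacobiSym.mul_left, jacobiSym.sq_one' (gc hk), mul_one, jacobiSym.mul_left,
    jacobiSym.sq_one' (gc n2), one_mul, jacobiSym.mul_left] at e1
  rw [jacobiSym.mul_left, e1, ← mul_assoc, ← pow_two, jacobiSym.sq_one (gc n7), one_mul]

theorem seven {m : ℕ} {A : Finset ℕ} (hm : MA m A) {b y : ℤ}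
    (h : (m : ℤ) * (pr A : ℤ) = b ^ 2 + 14 * y ^ 2) : ¬ (7 : ℤ) ∣ b := by
  intro h7
  have p7 : Prime (7 : ℤ) := by
    have : Nat.Prime 7 := by norm_num
    exact_mod_cast Nat.prime_iff_prime_int.mp this
  have h1 : (7 : ℤ) ∣ (m : ℤ) * (pr A : ℤ) := by
    rw [h]
    refine dvd_add (dvd_pow h7 two_ne_zero) ⟨2 * y ^ 2, by ring⟩
  rcases p7.dvd_or_dvd h1 with h2 | h2
  · rcases m_cases hm with rfl | rfl
    · norm_num at h2
    · norm_num at h2
  · have h3 : 7 ∣ pr A := by exact_mod_cast h2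
    unfold pr at h3
    have h4 : Nat.Prime 7 := by norm_num
    obtain ⟨l, hl, h5⟩ := (h4.prime.dvd_finsetProd_iff _).1 h3
    exact A7 hm l hl ((Nat.prime_dvd_prime_iff_eq h4 (pA hm l hl)).1 h5).symm

theorem t_SYM : S_SYM := by
  classical
  rintro m A hm ⟨b, y⟩ ⟨hq, hb4, hb3, hyb⟩ ⟨b', y'⟩ ⟨hq', hb4', hb3', hyb'⟩
  simp only at hq hb4 hb3 hyb hq' hb4' hb3' hyb' ⊢
  have ny := ndvd_y hm hq hb3
  have ny' := ndvd_y hm hq' hb3'
  have nb := ndvd_b hm hq hb3
  have nb' := ndvd_b hm hq' hb3'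
  obtain ⟨T, hT⟩ : ∃ T, T = Fl A (b, y) (b', y') := ⟨_, rfl⟩
  rw [← hT]
  have memT : ∀ l, l ∈ T ↔ l ∈ A ∧ (l : ℤ) ∣ b * y' + b' * y := by
    intro l
    rw [hT, Fl, Finset.mem_filter]
  have hTA : T ⊆ A := fun l hl => ((memT l).1 hl).1
  have hiff : ∀ l ∈ A, (l ∉ T ↔ (l : ℤ) ∣ b * y' - b' * y) := by
    intro l hl
    have hpl : Prime (l : ℤ) := Nat.prime_iff_prime_int.mp (pA hm l hl)
    have hprod : (l : ℤ) ∣ (b * y' + b' * y) * (b * y' - b' * y) := by
      have e : (b * y' + b' * y) * (b * y' - b' * y) = ((m : ℤ) * (pr A : ℤ)) * (y' ^ 2 - y ^ 2) := by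
        have e1 : (b * y' + b' * y) * (b * y' - b' * y) = b ^ 2 * y' ^ 2 - b' ^ 2 * y ^ 2 := by ring
        have e2 : b ^ 2 = (m : ℤ) * (pr A : ℤ) - 14 * y ^ 2 := by linarith
        have e3 : b' ^ 2 = (m : ℤ) * (pr A : ℤ) - 14 * y' ^ 2 := by linarith
        rw [e1, e2, e3]
        ring
      rw [e]
      exact Dvd.dvd.mul_right (Dvd.dvd.mul_left (by exact_mod_cast dvd_pr hl) _) _
    constructor
    · intro h
      rcases hpl.dvd_or_dvd hprod with h1 | h1
      · exact absurd ((memT l).2 ⟨hl, h1⟩) h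
      · exact h1
    · intro h h1
      have h2 := ((memT l).1 h1).2
      have h3 : (l : ℤ) ∣ 2 * (b * y') := by
        have e : 2 * (b * y') = (b * y' + b' * y) + (b * y' - b' * y) := by ring
        rw [e]
        exact dvd_add h2 h
      rcases hpl.dvd_or_dvd h3 with h4 | h4
      · exact ndvd (pA hm l hl) Nat.prime_two (A2 hm l hl) (by exact_mod_cast h4)
      rcases hpl.dvd_or_dvd h4 with h5 | h5
      · exact nb l hl h5
      · exact ny' l hl h5
  refine ⟨fun l hl => ⟨ny l hl, ny' l hl, hiff l hl⟩, ?_⟩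
  obtain ⟨⟨u, hu⟩, ⟨v, hv⟩⟩ := dvd_M hm hq hb3 hyb hq' hb3' hyb' (A \ T) Finset.sdiff_subset
    (fun l hl => (hiff l (Finset.mem_sdiff.1 hl).1).1 (Finset.mem_sdiff.1 hl).2)
  obtain ⟨u', hu'⟩ := dvd_T hm hq hb3 T hTA (b' := b') (y' := y') (fun l hl => ((memT l).1 hl).2)
  obtain ⟨M, hM⟩ : ∃ M : ℤ, M = (m : ℤ) * (pr (A \ T) : ℤ) := ⟨_, rfl⟩
  obtain ⟨t, ht⟩ : ∃ t : ℤ, t = (pr T : ℤ) := ⟨_, rfl⟩
  obtain ⟨N, hN⟩ : ∃ N : ℤ, N = (m : ℤ) * (pr A : ℤ) := ⟨_, rfl⟩
  have hMt : M * t = N := by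
    have e : pr (A \ T) * pr T = pr A := by
      unfold pr
      exact Finset.prod_sdiff hTA
    rw [hM, ht, hN, ← e]
    push_cast
    ring
  have hN8 : N % 8 = 1 := by
    rw [hN]
    exact N8 hm
  have htpos : 0 < t := by
    rw [ht]
    exact_mod_cast pr_pos fun p hp => pA hm p (hTA hp)
  have hlM : ∀ l ∈ A, l ∉ T → (l : ℤ) ∣ M := by
    intro l hl hlT
    rw [hM]
    exact Dvd.dvd.mul_left (by exact_mod_cast dvd_pr (Finset.mem_sdiff.2 ⟨hl, hlT⟩)) _
  have hlt : ∀ l ∈ T, (l : ℤ) ∣ t := by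
    intro l hl
    rw [ht]
    exact_mod_cast dvd_pr hl
  rw [← hN] at hq hq'
  rw [← hM] at hu hv
  rw [← ht] at hu'
  have hN0 : N ≠ 0 := by
    intro h
    rw [h] at hN8
    norm_num at hN8
  obtain ⟨hKK, huv⟩ := alg hq hq' hMt hN0 hu hu' hv
  have hy2 := y_even hN8 hq hb4
  have hK4 : (t + u) % 4 = 2 := by
    have e1 : (M * t) % 4 = 1 := by
      rw [hMt]
      omega
    have e2 : (M * (t + u)) % 4 = 2 := by
      obtain ⟨k, hk⟩ : ∃ k, y = 2 * k := ⟨y / 2, by omega⟩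
      obtain ⟨n, hn⟩ : ∃ n, b = 4 * n + 1 := ⟨b / 4, by omega⟩
      obtain ⟨n', hn'⟩ : ∃ n', b' = 4 * n' + 1 := ⟨b' / 4, by omega⟩
      have e3 : M * (t + u) = N + (b * b' + 14 * y * y') := by
        rw [hu, ← hMt]
        ring
      have e4 : b * b' + 14 * y * y' = 4 * (4 * n * n' + n + n' + 7 * k * y') + 1 := by
        rw [hk, hn, hn']
        ring
      rw [e3, e4]
      omega
    rw [Int.mul_emod] at e1 e2
    have h1 : M % 4 = 0 ∨ M % 4 = 1 ∨ M % 4 = 2 ∨ M % 4 = 3 := by omega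
    have h2 : (t + u) % 4 = 0 ∨ (t + u) % 4 = 1 ∨ (t + u) % 4 = 2 ∨ (t + u) % 4 = 3 := by omega
    have h3 : t % 4 = 0 ∨ t % 4 = 1 ∨ t % 4 = 2 ∨ t % 4 = 3 := by omega
    rcases h2 with h2 | h2 | h2 | h2
    · rw [h2] at e2
      norm_num at e2
    · rw [h2] at e2
      rcases h1 with h1 | h1 | h1 | h1 <;> rw [h1] at e1 e2 <;>
        rcases h3 with h3 | h3 | h3 | h3 <;> rw [h3] at e1 <;> omega
    · exact h2
    · rw [h2] at e2
      rcases h1 with h1 | h1 | h1 | h1 <;> rw [h1] at e1 e2 <;>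
        rcases h3 with h3 | h3 | h3 | h3 <;> rw [h3] at e1 <;> omega
  have hMu : ∀ l ∈ T, (l : ℤ) ∣ M * (t + u) - 28 * (y * y') := by
    intro l hl
    have e : M * (t + u) - 28 * (y * y') = M * t + (b * b' - 14 * y * y') := by
      have : M * (t + u) = M * t + M * u := by ring
      rw [this, ← hu]
      ring
    rw [e, hu']
    exact dvd_add (Dvd.dvd.mul_left (hlt l hl) _) (Dvd.dvd.mul_right (hlt l hl) _)
  have hcop : IsCoprime (t + u) t := by
    rw [ht]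
    unfold pr
    rw [Nat.cast_prod]
    apply IsCoprime.prod_right
    intro l hl
    have hpl : Prime (l : ℤ) := Nat.prime_iff_prime_int.mp (pA hm l (hTA hl))
    apply IsCoprime.symm
    rw [hpl.coprime_iff_not_dvd]
    intro hd
    have h1 := hMu l hl
    have h2 : (l : ℤ) ∣ 2 * (2 * (7 * (y * y'))) := by
      have e : 2 * (2 * (7 * (y * y'))) = M * (t + u) - (M * (t + u) - 28 * (y * y')) := by ring
      rw [e]
      apply dvd_sub _ h1
      apply Dvd.dvd.mul_left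
      rw [ht]
      unfold pr
      rw [Nat.cast_prod]
      exact hd
    have hlA := hTA hl
    rcases hpl.dvd_or_dvd h2 with h4 | h4
    · exact ndvd (pA hm l hlA) Nat.prime_two (A2 hm l hlA) (by exact_mod_cast h4)
    rcases hpl.dvd_or_dvd h4 with h4 | h4
    · exact ndvd (pA hm l hlA) Nat.prime_two (A2 hm l hlA) (by exact_mod_cast h4)
    rcases hpl.dvd_or_dvd h4 with h4 | h4
    · exact ndvd (pA hm l hlA) (by norm_num : Nat.Prime 7) (A7 hm l hlA) (by exact_mod_cast h4)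
    rcases hpl.dvd_or_dvd h4 with h4 | h4
    · exact ny l hlA h4
    · exact ny' l hlA h4
  obtain ⟨δ, k, w, hδ, hK, hk, hd2, hd14⟩ := kk htpos huv hK4 hcop
  obtain ⟨k', hK'⟩ := kp hKK hδ hK hk
  have nyy : ∀ l ∈ A, ¬ (l : ℤ) ∣ y * y' := by
    intro l hl h
    have hpl : Prime (l : ℤ) := Nat.prime_iff_prime_int.mp (pA hm l hl)
    rcases hpl.dvd_or_dvd h with h | h
    · exact ny l hl h
    · exact ny' l hl h
  have hb7 : ¬ (7 : ℤ) ∣ b := seven (A := A) hm (y := y) (by rw [← hN]; exact hq)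
  have hg7 : Int.gcd b (7 : ℕ) = 1 := by
    rw [Int.gcd_comm, ← Int.isCoprime_iff_gcd_eq_one]
    have p7 : Prime ((7 : ℕ) : ℤ) := Nat.prime_iff_prime_int.mp (by norm_num)
    exact (p7.coprime_iff_not_dvd).mpr (by exact_mod_cast hb7)
  refine ⟨?_, δ, hδ, ?_, ?_, ?_⟩
  · have hj := (all_mod T (fun p hp => hm.1.1 p (hTA hp)) (fun h => hm.1.2 (hTA h))).2.2.1
    by_contra hodd
    rw [Nat.not_even_iff_odd] at hodd
    rw [hodd.neg_one_pow] at hj
    have : ∃ x : ℤ, jacobiSym ((pr T : ℕ) : ℤ) 7 = x ^ 2 := by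
      rcases hδ with h | h
      · refine ⟨jacobiSym k 7, ?_⟩
        rw [← jacobiSym.pow_left]
        apply jacobiSym.mod_left'
        rw [← ht, hd2 h]
        have : k ^ 2 + 14 * w ^ 2 = k ^ 2 + (7 : ℕ) * (2 * w ^ 2) := by
          push_cast
          ring
        rw [this]
        exact Int.add_mul_emod_self_left _ _ _
      · refine ⟨jacobiSym w 7, ?_⟩
        rw [← jacobiSym.pow_left]
        have e1 : jacobiSym ((pr T : ℕ) : ℤ) 7 = jacobiSym (2 * w ^ 2) 7 := by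
          apply jacobiSym.mod_left'
          rw [← ht, hd14 h]
          have : 7 * k ^ 2 + 2 * w ^ 2 = 2 * w ^ 2 + (7 : ℕ) * (k ^ 2) := by
            push_cast
            ring
          rw [this]
          exact Int.add_mul_emod_self_left _ _ _
        rw [e1, jacobiSym.mul_left]
        have : jacobiSym 2 7 = 1 := by norm_num
        rw [this, one_mul]
    obtain ⟨x, hx⟩ := this
    rw [hj] at hx
    nlinarith [sq_nonneg x]
  · intro l hl hlT
    have h1 : (l : ℤ) ∣ (-(t * δ)) * k' ^ 2 - 28 * (y * y') := by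
      have e : (-(t * δ)) * k' ^ 2 - 28 * (y * y') = -(t * M) - (b * b' + 14 * y * y') := by
        have e1 : t * (M + u') = t * M + (b * b' - 14 * y * y') := by
          rw [hu']
          ring
        rw [hK'] at e1
        linear_combination -e1
      rw [e, hu]
      exact dvd_sub ((dvd_neg).mpr (Dvd.dvd.mul_left (hlM l hl hlT) _))
        (Dvd.dvd.mul_right (hlM l hl hlT) _)
    rw [jac_l (pA hm l hl) (A2 hm l hl) (A7 hm l hl) (nyy l hl) h1, ← ht]
    congr 1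
    ring
  · intro l hl
    have h1 : (l : ℤ) ∣ (M * δ) * k ^ 2 - 28 * (y * y') := by
      have h2 := hMu l hl
      rw [hK] at h2
      rw [mul_assoc]
      exact h2
    rw [jac_l (pA hm l (hTA hl)) (A2 hm l (hTA hl)) (A7 hm l (hTA hl)) (nyy l (hTA hl)) h1, ← hM]
    congr 1
    ring
  · have e0 : b * b' = M * u - 7 * (2 * y * y') := by
      rw [← hu]
      ring
    rcases hδ with h | h
    · rw [if_neg (by rw [h]; norm_num)]
      have e1 : jacobiSym (b * b') 7 = jacobiSym (b ^ 2) 7 := by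
        apply jacobiSym.mod_left'
        apply Int.emod_eq_emod_iff_emod_sub_eq_zero.mpr
        apply Int.emod_eq_zero_of_dvd
        refine ⟨M * (-(4 * w ^ 2)) - 2 * y * y' + 2 * y ^ 2, ?_⟩
        have e2 : u = t - 28 * w ^ 2 := by
          have := hd2 h
          rw [h] at hK
          linarith
        rw [e0, e2]
        push_cast
        linear_combination hMt + hq
      rw [e1]
      exact jacobiSym.sq_one' hg7
    · rw [if_pos h]
      have e1 : jacobiSym (b * b') 7 = jacobiSym ((-1) * b ^ 2) 7 := by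
        apply jacobiSym.mod_left'
        apply Int.emod_eq_emod_iff_emod_sub_eq_zero.mpr
        apply Int.emod_eq_zero_of_dvd
        refine ⟨M * (2 * k ^ 2) - 2 * y * y' - 2 * y ^ 2, ?_⟩
        have e2 : u = 14 * k ^ 2 - t := by
          rw [h] at hK
          linarith
        rw [e0, e2]
        push_cast
        linear_combination -hMt - hq
      rw [e1, jacobiSym.mul_left, jacobiSym.sq_one' hg7]
      norm_num

theorem t_UNI : S_UNI := by
  rintro m A hm ⟨b, y⟩ ⟨hq, hb4, hb3, hyb⟩ ⟨b', y'⟩ ⟨hq', hb4', hb3', hyb'⟩ hdiv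
  simp only at hq hb4 hb3 hyb hq' hb4' hb3' hyb' hdiv
  have hP := pA hm
  obtain ⟨-, hall⟩ := dvd_M hm hq hb3 hyb hq' hb3' hyb' A (Finset.Subset.refl A) hdiv
  obtain ⟨N, hN⟩ : ∃ N : ℤ, N = (m : ℤ) * (pr A : ℤ) := ⟨_, rfl⟩
  rw [← hN] at hq hq' hall
  have hmpos : (0 : ℤ) < N := by
    rw [hN]
    have h1 : (0 : ℤ) < pr A := by exact_mod_cast pr_pos hP
    have h2 : (0 : ℤ) < m := by
      rcases m_cases hm with rfl | rfl <;> norm_num
    exact mul_pos h2 h1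
  have hid : (b * b' + 14 * y * y') ^ 2 + 14 * (b * y' - b' * y) ^ 2 = N ^ 2 := by
    have : N ^ 2 = (b ^ 2 + 14 * y ^ 2) * (b' ^ 2 + 14 * y' ^ 2) := by
      rw [← hq, ← hq']
      ring
    rw [this]
    ring
  have hW : b * y' - b' * y = 0 := by
    by_contra hne
    obtain ⟨c, hc⟩ := hall
    have hc0 : c ≠ 0 := by
      rintro rfl
      exact hne (by rw [hc]; ring)
    have hc1 : 1 ≤ c ^ 2 := by
      have h2 : 0 < c ^ 2 := by positivity
      omega
    rw [hc] at hid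
    nlinarith [sq_nonneg (b * b' + 14 * y * y'), mul_pos hmpos hmpos,
      mul_le_mul_of_nonneg_left hc1 (by positivity : (0:ℤ) ≤ N ^ 2)]
  have hy0 : ¬ (3 : ℤ) ∣ y := fun h => hb3 (by
    have : b = y - (y - b) := by ring
    rw [this]
    exact dvd_sub h hyb)
  have hy1 : y ≠ 0 := by
    rintro rfl
    exact hy0 (dvd_zero _)
  have h2 : y' ^ 2 = y ^ 2 := by
    have h3 : N * (y' ^ 2 - y ^ 2) = 0 := by
      have : N * (y' ^ 2 - y ^ 2) = (b * y' + b' * y) * (b * y' - b' * y) := by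
        linear_combination (y' ^ 2) * hq - y ^ 2 * hq'
      rw [this, hW, mul_zero]
    rcases mul_eq_zero.mp h3 with h4 | h4
    · exfalso
      omega
    · linarith
  rcases sq_eq_sq_iff_eq_or_eq_neg.mp h2 with h3 | h3
  · subst h3
    have h4 : (b - b') * y' = 0 := by linear_combination hW
    rcases mul_eq_zero.mp h4 with h5 | h5
    · have : b = b' := by linarith
      rw [this]
    · exact absurd h5 hy1
  · subst h3
    have h4 : (b + b') * y = 0 := by linear_combination -hW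
    rcases mul_eq_zero.mp h4 with h5 | h5
    · exfalso
      omega
    · exact absurd h5 hy1

theorem ty9 {A : Finset ℕ} (hm : MA 9 A) : Ty 0 A := by
  rcases hm.2 with ⟨_, h⟩ | ⟨h, _⟩
  · exact h
  · exact absurd h (by norm_num)

theorem t_TOT : S_TOT := by
  rintro A hm ⟨b, y⟩ ⟨hq, hb4, hb3, hyb⟩ ⟨b', y'⟩ ⟨hq', hb4', hb3', hyb'⟩ hdiv
  have hP := pA hm
  simp only at hq hb4 hb3 hyb hq' hb4' hb3' hyb' hdiv ⊢
  push_cast at hq hq'
  obtain ⟨Y, hY⟩ := pr_dvd hP hdiv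
  have hmpos : (0 : ℤ) < pr A := by exact_mod_cast pr_pos hP
  have hm8 : pr A % 8 = 1 := pr8 hm.1 (ty9 hm)
  have hm8' : (pr A : ℤ) % 8 = 1 := by exact_mod_cast hm8
  have hj : jacobiSym ((pr A : ℕ) : ℤ) 7 = 1 := by
    obtain ⟨-, -, h1, h2⟩ := all_mod A hm.1.1 hm.1.2
    rw [h1]
    apply Even.neg_one_pow
    rw [h2, Nat.even_iff]
    have h3 := (ty9 hm).1
    have h4 := (ty9 hm).2
    omega
  obtain ⟨m, hm'⟩ : ∃ m : ℤ, m = pr A := ⟨_, rfl⟩
  rw [← hm'] at hq hq' hY hmpos hm8' hj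
  have hid : (b * b' - 14 * y * y') ^ 2 + 14 * (b * y' + b' * y) ^ 2 = (9 * m) ^ 2 := by
    have : (9 * m) ^ 2 = (b ^ 2 + 14 * y ^ 2) * (b' ^ 2 + 14 * y' ^ 2) := by
      rw [← hq, ← hq']
      ring
    rw [this]
    ring
  have hX : m ∣ b * b' - 14 * y * y' := by
    have h1 : m ^ 2 ∣ (b * b' - 14 * y * y') ^ 2 := by
      refine ⟨81 - 14 * Y ^ 2, ?_⟩
      rw [hY] at hid
      linear_combination hid
    exact (Int.pow_dvd_pow_iff two_ne_zero).1 h1
  obtain ⟨X, hX⟩ := hX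
  have hXY : X ^ 2 + 14 * Y ^ 2 = 81 := by
    rw [hX, hY] at hid
    have h1 : m ^ 2 * (X ^ 2 + 14 * Y ^ 2) = m ^ 2 * 81 := by linear_combination hid
    exact mul_left_cancel₀ (by positivity) h1
  have hY3 : ¬ (3 : ℤ) ∣ Y := by
    intro h
    have h0 : (3 : ℤ) ∣ b * y' + b' * y := by
      rw [hY]
      exact Dvd.dvd.mul_left h _
    have h3 : (3 : ℤ) ∣ 2 * (b * b') := by
      have h4 : 2 * (b * b') = (b * y' + b' * y) - b * (y' - b') - b' * (y - b) := by ring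
      rw [h4]
      exact dvd_sub (dvd_sub h0 (Dvd.dvd.mul_left hyb' _)) (Dvd.dvd.mul_left hyb _)
    rcases Int.prime_three.dvd_or_dvd h3 with h5 | h5
    · norm_num at h5
    · rcases Int.prime_three.dvd_or_dvd h5 with h6 | h6
      · exact hb3 h6
      · exact hb3' h6
  have hX5 : X = 5 ∨ X = -5 := by
    have hYb : Y ≤ 2 := by nlinarith [sq_nonneg X]
    have hYb' : -2 ≤ Y := by nlinarith [sq_nonneg X]
    have hXb : X ≤ 9 := by nlinarith [sq_nonneg Y]
    have hXb' : -9 ≤ X := by nlinarith [sq_nonneg Y]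
    interval_cases Y
    · interval_cases X <;> omega
    · interval_cases X <;> omega
    · exact absurd (dvd_zero _) hY3
    · interval_cases X <;> omega
    · interval_cases X <;> omega
  have hye := y_even (N := 9 * m) (by omega) hq hb4
  have hX1 : X = 5 := by
    rcases hX5 with h | h
    · exact h
    · exfalso
      obtain ⟨k, hk⟩ : ∃ k, y = 2 * k := ⟨y / 2, by omega⟩
      obtain ⟨l, hl⟩ : ∃ l, b = 4 * l + 1 := ⟨b / 4, by omega⟩
      obtain ⟨l', hl'⟩ : ∃ l', b' = 4 * l' + 1 := ⟨b' / 4, by omega⟩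
      obtain ⟨n, hn⟩ : ∃ n, m = 8 * n + 1 := ⟨m / 8, by omega⟩
      have e : 4 * (4 * l * l' + l + l' - 7 * k * y' + 10 * n) + 6 = 0 := by
        rw [hk, hl, hl', hn, h] at hX
        linear_combination hX
      generalize 4 * l * l' + l + l' - 7 * k * y' + 10 * n = t at e
      omega
  -- modulo 7
  have h7 : (b * b') % 7 = (5 * m) % 7 := by
    have : b * b' = 5 * m + 7 * (2 * y * y') := by
      rw [hX1] at hX
      linear_combination hX
    rw [this]
    exact Int.add_mul_emod_self_left _ _ _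
  have h8 : jacobiSym (b * b') 7 = jacobiSym (5 * m) 7 := jacobiSym.mod_left' h7
  rw [h8, jacobiSym.mul_left, hj, mul_one]
  norm_num

theorem prod_jacobi {P : Finset ℕ} (hP : ∀ p ∈ P, p.Prime) (y : ℤ) :
    ∏ p ∈ P, jacobiSym y p = jacobiSym y (pr P) := by
  classical
  unfold pr
  induction P using Finset.induction_on with
  | empty => simp
  | insert a s ha ih =>
    have hs : ∀ p ∈ s, p.Prime := fun p hp => hP p (Finset.mem_insert_of_mem hp)
    have hap : 0 < a := (hP a (Finset.mem_insert_self a s)).pos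
    have hsp : 0 < ∏ p ∈ s, p := Finset.prod_pos fun p hp => (hs p hp).pos
    haveI : NeZero a := ⟨hap.ne'⟩
    haveI : NeZero (∏ p ∈ s, p) := ⟨hsp.ne'⟩
    rw [Finset.prod_insert ha, Finset.prod_insert ha, jacobiSym.mul_right, ih hs]

theorem t_PRO : S_PRO := by
  classical
  rintro A hm ⟨b, y⟩ ⟨hq, hb4, hb3, hyb⟩
  have hP := pA hm
  simp only at hq hb4 hb3 hyb ⊢
  have hcop := coprime_by hm hq hb3
  push_cast at hq
  have hm8 : pr A % 8 = 1 := pr8 hm.1 (ty9 hm)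
  rw [prod_jacobi hP]
  have hm1 : pr A % 4 = 1 := by omega
  have hmodd : Odd (pr A) := by
    rw [Nat.odd_iff]
    omega
  have hneg : jacobiSym (-1) (pr A) = 1 := by
    rw [jacobiSym.at_neg_one hmodd, ZMod.χ₄_nat_one_mod_four hm1]
  have htwo : jacobiSym 2 (pr A) = 1 := by
    rw [jacobiSym.at_two hmodd, ZMod.χ₈_nat_eq_if_mod_eight]
    simp [hm8]
    omega
  have hy0 : y ≠ 0 := by
    rintro rfl
    apply hb3
    have : b = -(0 - b) := by ring
    rw [this]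
    exact (dvd_neg).mpr hyb
  -- reduce to the absolute value
  have habs : jacobiSym y (pr A) = jacobiSym (y.natAbs : ℤ) (pr A) := by
    rcases Int.natAbs_eq y with h | h
    · rw [← h]
    · conv_lhs => rw [h]
      rw [← neg_one_mul, jacobiSym.mul_left, hneg, one_mul]
  obtain ⟨i, o, hodd, ho⟩ := Nat.exists_eq_two_pow_mul_odd (Int.natAbs_ne_zero.mpr hy0)
  rw [habs, ho]
  push_cast
  rw [jacobiSym.mul_left, jacobiSym.pow_left, htwo, one_pow, one_mul]
  rw [← jacobiSym.quadratic_reciprocity_one_mod_four hm1 hodd]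
  have hoy : (o : ℤ) ∣ y := Int.natCast_dvd.mpr ⟨2 ^ i, by rw [ho]; ring⟩
  have hbo : IsCoprime b (o : ℤ) := hcop.of_isCoprime_of_dvd_right hoy
  have h3o : IsCoprime (3 : ℤ) (o : ℤ) := by
    rw [Int.prime_three.coprime_iff_not_dvd]
    intro h
    have h1 : (3 : ℤ) ∣ y := h.trans hoy
    apply hb3
    have : b = y - (y - b) := by ring
    rw [this]
    exact dvd_sub h1 hyb
  have e1 : jacobiSym (9 * (pr A : ℤ)) o = jacobiSym (b ^ 2) o := by
    apply jacobiSym.mod_left'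
    apply Int.emod_emod_of_dvd _ (dvd_refl _) |>.symm.trans
    rw [hq]
    rw [Int.emod_emod_of_dvd _ (dvd_refl _)]
    obtain ⟨t, ht⟩ := hoy
    rw [show b ^ 2 + 14 * y ^ 2 = b ^ 2 + (o : ℤ) * (14 * t * y) by
      rw [pow_two y]; nth_rw 1 [ht]; ring]
    exact Int.add_mul_emod_self_left _ _ _
  have e2 : jacobiSym (b ^ 2) o = 1 := by
    rw [jacobiSym.sq_one' (Int.isCoprime_iff_gcd_eq_one.mp hbo)]
  have e3 : jacobiSym 9 o = 1 := by
    have : (9 : ℤ) = 3 ^ 2 := by norm_num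
    rw [this]
    exact jacobiSym.sq_one' (Int.isCoprime_iff_gcd_eq_one.mp h3o)
  rw [jacobiSym.mul_left, e3, one_mul, e2] at e1
  exact e1

end Pool.Agent.Y37.Z17G
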